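import Mathlib
import Pool.Agent.Y135.BQs

/-!
# Multiplicities
-/

set_option autoImplicit false

open MvPolynomial
open H4RC
open Pool.Agent.Y135.BQ

namespace Pool.Agent.Y419.TEN

lemma mult_eq (F : MvPolynomial (Fin 3) ℂ) (w : Fin 3 → ℂ) :
    mult F w = MvPowerSeries.order ((shift w F : MvPolynomial (Fin 3) ℂ) : MvPowerSeries (Fin 3) ℂ) := rfl

lemma mult_eq_nat (F : MvPolynomial (Fin 3) ℂ) (w : Fin 3 → ℂ) (k : ℕ) :
    mult F w = k ↔ (∃ d, coeff d (shift w F) ≠ 0 ∧ d.degree = k) ∧ ∀ d : Fin 3 →₀ ℕ, d.degree < k →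
      coeff d (shift w F) = 0 := by
  rw [mult_eq, MvPowerSeries.order_eq_nat]
  simp only [MvPolynomial.coeff_coe]

lemma coeff_of_lt_mult {F : MvPolynomial (Fin 3) ℂ} {w : Fin 3 → ℂ} {k : ℕ} (h : (k : ℕ∞) ≤ mult F w)
    (d : Fin 3 →₀ ℕ) (hd : d.degree < k) : coeff d (shift w F) = 0 := by
  rw [← MvPolynomial.coeff_coe]
  refine MvPowerSeries.coeff_of_lt_order ?_
  refine lt_of_lt_of_le ?_ h
  exact_mod_cast hd

lemma shift_C (w : Fin 3 → ℂ) (c : ℂ) : shift w (C c) = C c := by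
  simp [shift]

theorem main_MULTA : Pool.Agent.Y135.BQ.S_MULTA := by
  intro P R w k hP hR
  obtain ⟨⟨m, hm, hmk⟩, hlt⟩ := (mult_eq_nat P w k).1 hP
  refine Set.Finite.subset (Set.finite_singleton (-(coeff m (shift w P)) / coeff m (shift w R))) ?_
  intro c hc
  rw [Set.mem_singleton_iff]
  by_contra hne
  apply hc
  rw [mult_eq_nat]
  have hcoef : ∀ d, coeff d (shift w (P + C c * R)) = coeff d (shift w P) + c * coeff d (shift w R) := by
    intro d
    rw [map_add, map_mul, shift_C, coeff_add, coeff_C_mul]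
  refine ⟨⟨m, ?_, hmk⟩, fun d hd => ?_⟩
  · rw [hcoef]
    intro h0
    by_cases hr : coeff m (shift w R) = 0
    · rw [hr, mul_zero, add_zero] at h0
      exact hm h0
    · apply hne
      rw [eq_div_iff hr]
      linear_combination h0
  · rw [hcoef, hlt d hd, coeff_of_lt_mult hR d hd, mul_zero, add_zero]

lemma pderiv_shift (w : Fin 3 → ℂ) (i : Fin 3) (F : MvPolynomial (Fin 3) ℂ) :
    pderiv i (shift w F) = shift w (pderiv i F) := by
  induction F using MvPolynomial.induction_on with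
  | C a => simp [shift]
  | add p q hp hq => rw [map_add, map_add, hp, hq, map_add, map_add]
  | mul_X p j hp =>
    have h1 : shift w (X j) = X j + C (w j) := by simp [shift]
    rw [map_mul, Derivation.leibniz, Derivation.leibniz, map_add, smul_eq_mul, smul_eq_mul, smul_eq_mul,
      smul_eq_mul, map_mul, map_mul, hp, h1, map_add, pderiv_C, add_zero, pderiv_X]
    by_cases h : j = i
    · subst h
      simp
    · rw [Pi.single_eq_of_ne h]
      simp

lemma coeff_mixed (F : MvPolynomial (Fin 3) ℂ) (w : Fin 3 → ℂ) :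
    coeff (Finsupp.single 0 1 + Finsupp.single 1 1) (shift w F) = eval w (pderiv 0 (pderiv 1 F)) := by
  have h1 := coeff_pderiv (i := (1 : Fin 3)) (shift w F) (Finsupp.single 0 1)
  rw [pderiv_shift, coeff_single_shift] at h1
  have h2 : (Finsupp.single (0 : Fin 3) 1 : Fin 3 →₀ ℕ) 1 = 0 := by simp
  rw [h2] at h1
  rw [h1]
  simp

lemma pderiv_mon_two (k : Fin 8) (z : Fin 2 → ℂ) :
    eval (pt z) (pderiv 2 (mon k)) = ((3 - ea k - eb k : ℕ) : ℂ) * z 0 ^ ea k * z 1 ^ eb k := by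
  have h1 : pderiv 2 (X 0 : MvPolynomial (Fin 3) ℂ) = 0 := pderiv_X_of_ne (by decide)
  have h2 : pderiv 2 (X 1 : MvPolynomial (Fin 3) ℂ) = 0 := pderiv_X_of_ne (by decide)
  simp [mon, pt, Derivation.leibniz, Derivation.leibniz_pow, h1, h2]
  ring

lemma pderiv_mon_mixed (k : Fin 8) (z : Fin 2 → ℂ) :
    eval (pt z) (pderiv 0 (pderiv 1 (mon k))) =
      (ea k : ℂ) * (eb k : ℂ) * z 0 ^ (ea k - 1) * z 1 ^ (eb k - 1) := by
  have h1 : pderiv 0 (X 1 : MvPolynomial (Fin 3) ℂ) = 0 := pderiv_X_of_ne (by decide)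
  have h2 : pderiv 0 (X 2 : MvPolynomial (Fin 3) ℂ) = 0 := pderiv_X_of_ne (by decide)
  have h3 : pderiv 1 (X 0 : MvPolynomial (Fin 3) ℂ) = 0 := pderiv_X_of_ne (by decide)
  have h4 : pderiv 1 (X 2 : MvPolynomial (Fin 3) ℂ) = 0 := pderiv_X_of_ne (by decide)
  simp [mon, pt, Derivation.leibniz, Derivation.leibniz_pow, h1, h2, h3, h4]
  ring

lemma pderiv_cub_two (u v : ℂ) (c : Fin 8 → ℂ) (z : Fin 2 → ℂ) :
    eval (pt z) (pderiv 2 (cub u v c)) = 3 * ev u v c z - z 0 * dx u v c z - z 1 * dy u v c z := by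
  have h1 : pderiv 2 (X 0 : MvPolynomial (Fin 3) ℂ) = 0 := pderiv_X_of_ne (by decide)
  have h2 : pderiv 2 (X 1 : MvPolynomial (Fin 3) ℂ) = 0 := pderiv_X_of_ne (by decide)
  have e1 : eval (pt z) (pderiv 2 (cub u v c)) =
      ∑ k, c k * (((3 - ea k - eb k : ℕ) : ℂ) * z 0 ^ ea k * z 1 ^ eb k) := by
    rw [cub, map_add, map_add, map_sum, map_add, map_add, map_sum]
    have e2 : ∀ k, eval (pt z) (pderiv 2 (C (c k) * mon k)) =
        c k * (((3 - ea k - eb k : ℕ) : ℂ) * z 0 ^ ea k * z 1 ^ eb k) := by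
      intro k
      rw [pderiv_C_mul, map_mul, eval_C, pderiv_mon_two]
    rw [Finset.sum_congr rfl fun k _ => e2 k]
    simp [Derivation.leibniz_pow, h1, h2]
  rw [e1, ev, dx, dy]
  simp [Fin.sum_univ_eight, mv, ea, eb]
  ring

lemma pderiv_cub_mixed (u v : ℂ) (c : Fin 8 → ℂ) (z : Fin 2 → ℂ) :
    eval (pt z) (pderiv 0 (pderiv 1 (cub u v c))) =
      ∑ k, c k * ((ea k : ℂ) * (eb k : ℂ) * z 0 ^ (ea k - 1) * z 1 ^ (eb k - 1)) := by
  have h1 : pderiv 0 (X 1 : MvPolynomial (Fin 3) ℂ) = 0 := pderiv_X_of_ne (by decide)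
  have h3 : pderiv 1 (X 0 : MvPolynomial (Fin 3) ℂ) = 0 := pderiv_X_of_ne (by decide)
  rw [cub, map_add, map_add, map_sum, map_add, map_add, map_sum, map_add, map_add, map_sum]
  have e2 : ∀ k, eval (pt z) (pderiv 0 (pderiv 1 (C (c k) * mon k))) =
      c k * ((ea k : ℂ) * (eb k : ℂ) * z 0 ^ (ea k - 1) * z 1 ^ (eb k - 1)) := by
    intro k
    rw [pderiv_C_mul, pderiv_C_mul, map_mul, eval_C, pderiv_mon_mixed]
  rw [Finset.sum_congr rfl fun k _ => e2 k]
  have h5 : pderiv 0 (3 : MvPolynomial (Fin 3) ℂ) = 0 := by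
    have := Derivation.map_natCast (pderiv (0 : Fin 3) : Derivation ℂ (MvPolynomial (Fin 3) ℂ) _) 3
    simpa using this
  simp [Derivation.leibniz, Derivation.leibniz_pow, h1, h3, h5]

theorem main_MULTB : Pool.Agent.Y135.BQ.S_MULTB := by
  intro a z h0 hx hy
  have k0 : eval (pt z) (cuT a) = 0 := by rw [cuT, eval_cub]; exact h0
  have kx : eval (pt z) (pderiv 0 (cuT a)) = 0 := by rw [cuT, pderiv_cub_zero]; exact hx
  have ky : eval (pt z) (pderiv 1 (cuT a)) = 0 := by rw [cuT, pderiv_cub_one]; exact hy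
  have kz : eval (pt z) (pderiv 2 (cuT a)) = 0 := by
    rw [cuT, pderiv_cub_two]
    have a0 : ev a.1 a.2.1 a.2.2 z = 0 := h0
    have a1 : dx a.1 a.2.1 a.2.2 z = 0 := hx
    have a2 : dy a.1 a.2.1 a.2.2 z = 0 := hy
    rw [a0, a1, a2]
    ring
  have hlow : ∀ d : Fin 3 →₀ ℕ, d.degree < 2 → coeff d (shift (pt z) (cuT a)) = 0 := by
    intro d hd
    have hd' : d.degree = 0 ∨ d.degree = 1 := by omega
    rcases hd' with h | h
    · rw [Finsupp.degree_eq_zero_iff] at h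
      rw [h, coeff_zero_shift, k0]
    · obtain ⟨i, rfl⟩ : ∃ i, d = Finsupp.single i 1 := by
        rw [Finsupp.degree_eq_sum, Fin.sum_univ_three] at h
        have h' : (d 0 = 1 ∧ d 1 = 0 ∧ d 2 = 0) ∨ (d 0 = 0 ∧ d 1 = 1 ∧ d 2 = 0) ∨
            (d 0 = 0 ∧ d 1 = 0 ∧ d 2 = 1) := by omega
        rcases h' with ⟨a0, a1, a2⟩ | ⟨a0, a1, a2⟩ | ⟨a0, a1, a2⟩
        · refine ⟨0, ?_⟩
          ext j
          fin_cases j <;> simp [a0, a1, a2]
        · refine ⟨1, ?_⟩
          ext j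
          fin_cases j <;> simp [a0, a1, a2]
        · refine ⟨2, ?_⟩
          ext j
          fin_cases j <;> simp [a0, a1, a2]
      rw [coeff_single_shift]
      fin_cases i
      · exact kx
      · exact ky
      · exact kz
  refine ⟨?_, fun hxy => ?_⟩
  · rw [mult_eq]
    refine MvPowerSeries.nat_le_order (n := 2) fun d hd => ?_
    rw [MvPolynomial.coeff_coe]
    exact hlow d hd
  · have h2 := (mult_eq_nat (cuT a) (pt z) 2).2 ⟨⟨Finsupp.single 0 1 + Finsupp.single 1 1, ?_, ?_⟩, hlow⟩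
    · exact h2
    · rw [coeff_mixed, cuT, pderiv_cub_mixed]
      exact hxy
    · rw [map_add, Finsupp.degree_single, Finsupp.degree_single]

end Pool.Agent.Y419.TEN
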