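import Mathlib
import Pool.Agent.Y135.BQs

/-!
# Cubics through six points which do not lie on a conic
-/

set_option autoImplicit false

open MvPolynomial
open H4RC
open Pool.Agent.Y135.BQ

namespace Pool.Agent.Y419.TEN

/-- The monomials of degree at most two in the affine coordinates. -/
def idx6 : ℕ → ℕ → Fin 6
  | 0, 0 => 0
  | 1, 0 => 1
  | 0, 1 => 2
  | 2, 0 => 3
  | 1, 1 => 4
  | 0, 2 => 5
  | _, _ => 0

theorem m6_idx (i j : ℕ) (h : i + j ≤ 2) (z : Fin 2 → ℂ) : m6 z (idx6 i j) = z 0 ^ i * z 1 ^ j := by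
  have hi : i ≤ 2 := by omega
  have hj : j ≤ 2 := by omega
  interval_cases i <;> interval_cases j <;> first | omega | simp [m6, idx6]

theorem main_LOW : Pool.Agent.Y135.BQ.S_LOW := by
  intro s hs Q hd h z
  classical
  set δ : Fin 6 → ℂ := fun k => ∑ m ∈ Q.support with idx6 (m 0) (m 1) = k, Q.coeff m with hδ
  have key : ∀ z : Fin 2 → ℂ, eval (pt z) Q = ∑ k, δ k * m6 z k := by
    intro z
    rw [MvPolynomial.eval_eq']
    rw [← Finset.sum_fiberwise Q.support (fun m => idx6 (m 0) (m 1))]
    apply Finset.sum_congr rfl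
    intro k _
    rw [hδ]
    simp only
    rw [Finset.sum_mul]
    apply Finset.sum_congr rfl
    intro m hm
    rw [Finset.mem_filter] at hm
    have h1 : m.degree ≤ 2 := le_trans (MvPolynomial.le_totalDegree hm.1) hd
    rw [Finsupp.degree_eq_sum, Fin.sum_univ_three] at h1
    rw [← hm.2, m6_idx _ _ (by omega), Fin.prod_univ_three]
    simp [pt]
  have h0 : δ = 0 := by
    refine Matrix.eq_zero_of_mulVec_eq_zero hs ?_
    funext i
    have h1 := key (s i)
    rw [h i] at h1
    rw [Matrix.mulVec, dotProduct, Pi.zero_apply, h1]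
    refine Finset.sum_congr rfl fun k _ => ?_
    rw [Matrix.of_apply, mul_comm]
  rw [key z, h0]
  simp

theorem main_RP : Pool.Agent.Y135.BQ.S_RP := by
  intro s hs Q R hQ hne hv hJ
  rintro G ⟨A, rfl⟩ ⟨B, rfl⟩
  by_contra hG
  have hne0 : G * A ≠ 0 := by
    rintro h
    apply hne
    intro z
    rw [h, map_zero]
  have hG0 : G ≠ 0 := left_ne_zero_of_mul hne0
  have hA0 : A ≠ 0 := right_ne_zero_of_mul hne0
  have h1 := pos_totalDegree hG0 hG
  rw [MvPolynomial.totalDegree_mul_of_isDomain hG0 hA0] at hQ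
  have hGp : ∀ i, eval (pt (s i)) G ≠ 0 := by
    intro i hi
    rcases hJ i with h2 | h2
    · apply h2
      rw [map_mul, hi, zero_mul]
    · apply h2
      simp only [Derivation.leibniz, smul_eq_mul, map_add, map_mul, hi]
      ring
  apply hne
  intro z
  rw [map_mul, main_LOW s hs A (by omega) ?_ z, mul_zero]
  intro i
  have := hv i
  rw [map_mul] at this
  exact (mul_eq_zero.1 this).resolve_left (hGp i)

theorem main_SF : Pool.Agent.Y135.BQ.S_SF := by
  intro s hs Q hQ hne hv
  rintro G ⟨A, rfl⟩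
  by_contra hG
  have hne0 : G * G * A ≠ 0 := by
    rintro h
    apply hne
    intro z
    rw [h, map_zero]
  have hGG0 : G * G ≠ 0 := left_ne_zero_of_mul hne0
  have hG0 : G ≠ 0 := left_ne_zero_of_mul hGG0
  have hA0 : A ≠ 0 := right_ne_zero_of_mul hne0
  have hGA0 : G * A ≠ 0 := mul_ne_zero hG0 hA0
  have h1 := pos_totalDegree hG0 hG
  rw [mul_assoc] at hQ
  rw [MvPolynomial.totalDegree_mul_of_isDomain hG0 hGA0] at hQ
  have hGp : ∀ i, eval (pt (s i)) G ≠ 0 := by
    intro i hi
    apply (hv i).2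
    simp only [Derivation.leibniz, smul_eq_mul, map_add, map_mul, hi]
    ring
  apply hne
  intro z
  rw [mul_assoc, map_mul, main_LOW s hs (G * A) (by omega) ?_ z, mul_zero]
  intro i
  have := (hv i).1
  rw [mul_assoc, map_mul] at this
  exact (mul_eq_zero.1 this).resolve_left (hGp i)

theorem main_SG : Pool.Agent.Y135.BQ.S_SG := by
  intro s hs Q hQ hv h5
  rintro G ⟨A, rfl⟩
  by_contra hG
  have hne0 : G * G * A ≠ 0 := by
    rintro h
    apply h5
    rw [h, map_zero]
  have hGG0 : G * G ≠ 0 := left_ne_zero_of_mul hne0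
  have hG0 : G ≠ 0 := left_ne_zero_of_mul hGG0
  have hA0 : A ≠ 0 := right_ne_zero_of_mul hne0
  have h1 := pos_totalDegree hG0 hG
  rw [MvPolynomial.totalDegree_mul_of_isDomain hGG0 hA0,
    MvPolynomial.totalDegree_mul_of_isDomain hG0 hG0] at hQ
  have hGp : ∀ i : Fin 6, i ≠ 5 → eval (pt (s i)) G ≠ 0 := by
    intro i hi5 hi
    apply (hv i hi5).2
    constructor
    · simp only [Derivation.leibniz, smul_eq_mul, map_add, map_mul, hi]
      ring
    · simp only [Derivation.leibniz, smul_eq_mul, map_add, map_mul, hi]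
      ring
  have hAp : ∀ i : Fin 6, i ≠ 5 → eval (pt (s i)) A = 0 := by
    intro i hi5
    have := (hv i hi5).1
    rw [map_mul, map_mul] at this
    exact (mul_eq_zero.1 this).resolve_left (mul_ne_zero (hGp i hi5) (hGp i hi5))
  have hA5 : eval (pt (s 5)) A ≠ 0 := by
    intro h
    apply h5
    rw [map_mul, h, mul_zero]
  set L : MvPolynomial (Fin 3) ℂ := X 0 - C (s 5 0) * X 2 with hL
  have hLd : L.totalDegree ≤ 1 := by
    rw [hL]
    refine (MvPolynomial.totalDegree_sub _ _).trans (max_le ?_ ?_)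
    · exact (MvPolynomial.totalDegree_X _).le
    · refine (MvPolynomial.totalDegree_mul _ _).trans ?_
      rw [MvPolynomial.totalDegree_C, MvPolynomial.totalDegree_X]
  have hLz : ∀ z : Fin 2 → ℂ, eval (pt z) L = z 0 - s 5 0 := by
    intro z
    simp [hL, pt]
  have hAL : ∀ z, eval (pt z) A * (z 0 - s 5 0) = 0 := by
    intro z
    have h2 := main_LOW s hs (A * L) ?_ ?_ z
    · rwa [map_mul, hLz] at h2
    · refine (MvPolynomial.totalDegree_mul _ _).trans ?_
      omega
    · intro i
      rw [map_mul, hLz]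
      by_cases hi : i = 5
      · rw [hi, sub_self, mul_zero]
      · rw [hAp i hi, zero_mul]
  have hcont : Continuous fun t : ℂ => eval (pt ![s 5 0 + t, s 5 1]) A := by
    refine (MvPolynomial.continuous_eval A).comp ?_
    refine continuous_pi fun i => ?_
    fin_cases i
    · show Continuous fun t : ℂ => s 5 0 + t
      fun_prop
    · show Continuous fun _ : ℂ => s 5 1
      fun_prop
    · show Continuous fun _ : ℂ => (1 : ℂ)
      fun_prop
  have hzero : (fun t : ℂ => eval (pt ![s 5 0 + t, s 5 1]) A) = fun _ => 0 := by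
    refine Continuous.ext_on (dense_compl_singleton (0 : ℂ)) hcont continuous_const ?_
    intro t ht
    have h2 := hAL ![s 5 0 + t, s 5 1]
    have h3 : (![s 5 0 + t, s 5 1] : Fin 2 → ℂ) 0 - s 5 0 = t := by simp
    rw [h3] at h2
    exact (mul_eq_zero.1 h2).resolve_right ht
  apply hA5
  have h4 := congrFun hzero 0
  have h5' : (![s 5 0 + 0, s 5 1] : Fin 2 → ℂ) = s 5 := by
    funext i
    fin_cases i <;> simp
  simp only [h5'] at h4
  exact h4

end Pool.Agent.Y419.TEN
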